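import Mathlib

set_option autoImplicit false

namespace Pool.Agent.Results.MP_cdfe0d_gt.Counter

open Set Filter Topology

/-- A subcontinuum: a compact connected (nonempty) subset. -/
def Subcont {S : Type} [TopologicalSpace S] (K : Set S) : Prop := IsCompact K ∧ IsConnected K

/-- Not the union of two proper subcontinua. -/
def Indec (X : Type) [TopologicalSpace X] : Prop :=
  ¬ ∃ A B : Set X, Subcont A ∧ Subcont B ∧ A ≠ univ ∧ B ≠ univ ∧ A ∪ B = univ

/-- The set function `T`. -/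
def T {S : Type} [TopologicalSpace S] (A : Set S) : Set S :=
  {p | ∃ K : Set S, Subcont K ∧ p ∈ interior K ∧ K ∩ A = ∅}ᶜ

abbrev C := ℤ → Bool

def sh (n : ℤ) (c : C) : C := fun i => c (i + n)

lemma sh_cont (n : ℤ) : Continuous (sh n) := by unfold sh; fun_prop

def E := C × ℝ

noncomputable instance : TopologicalSpace E := inferInstanceAs (TopologicalSpace (C × ℝ))
instance : T2Space E := inferInstanceAs (T2Space (C × ℝ))
instance : LocallyCompactSpace E := inferInstanceAs (LocallyCompactSpace (C × ℝ))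
instance : SecondCountableTopology E := inferInstanceAs (SecondCountableTopology (C × ℝ))

noncomputable instance : AddAction ℤ E where
  vadd n e := (sh n e.1, e.2 - n)
  zero_vadd e := Prod.ext (funext fun i => congrArg e.1 (add_zero i)) (by
    change e.2 - ((0 : ℤ) : ℝ) = e.2; simp)
  add_vadd m n e := Prod.ext (funext fun i => congrArg e.1 (add_assoc i m n).symm) (by
    change e.2 - ((m + n : ℤ) : ℝ) = e.2 - n - m; push_cast; ring)

instance : ContinuousConstVAdd ℤ E :=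
  ⟨fun n => ((sh_cont n).comp continuous_fst).prodMk (continuous_snd.sub continuous_const)⟩

instance : ProperlyDiscontinuousVAdd ℤ E := ⟨fun {K L} hK hL => by
  obtain ⟨R, hR⟩ := ((hK.union hL).image (f := fun e : E => |e.2|)
    (continuous_snd.abs)).bddAbove
  obtain ⟨N, hN⟩ := exists_nat_ge (2 * R)
  refine (finite_Icc (-(N : ℤ)) N).subset ?_
  rintro n ⟨_, ⟨e, he, rfl⟩, h2⟩
  have h1 : |e.2| ≤ R := hR ⟨e, Or.inl he, rfl⟩
  have h3 : |e.2 - n| ≤ R := hR ⟨_, Or.inr h2, rfl⟩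
  rw [abs_le] at h1 h3
  constructor <;> rify <;> linarith⟩

abbrev X := AddAction.orbitRel.Quotient ℤ E

instance : T2Space X := t2Space_of_properlyDiscontinuousVAdd_of_t2Space
instance : SecondCountableTopology X := ContinuousConstVAdd.secondCountableTopology

noncomputable def π (e : C × ℝ) : X := Quotient.mk'' e

lemma π_q : IsOpenQuotientMap π := AddAction.isOpenQuotientMap_quotientMk (Γ := ℤ) (T := E)

lemma π_eq {c d : C} {s t : ℝ} : π (c, s) = π (d, t) ↔ ∃ n : ℤ, sh n d = c ∧ t - n = s :=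
  Quotient.eq''.trans ⟨fun ⟨n, h⟩ => ⟨n, congrArg Prod.fst h, congrArg Prod.snd h⟩,
    fun ⟨n, h1, h2⟩ => ⟨n, Prod.ext h1 h2⟩⟩

lemma π_sh (c : C) (s : ℝ) (n : ℤ) : π (c, s + n) = π (sh n c, s) :=
  (π_eq.2 ⟨n, rfl, by ring⟩).symm

instance : CompactSpace X := ⟨by
  refine ((isCompact_univ.prod (isCompact_Icc (a := (0 : ℝ)) (b := 1))).image
    π_q.continuous).of_isClosed_subset isClosed_univ fun x _ => ?_
  obtain ⟨⟨c, s⟩, rfl⟩ := π_q.surjective x
  exact ⟨(sh ⌊s⌋ c, Int.fract s), ⟨trivial, Int.fract_nonneg s, (Int.fract_lt_one s).le⟩,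
    by rw [← π_sh, Int.fract_add_floor]⟩⟩

noncomputable def h : X → UnitAddCircle := Quotient.lift (fun e : E => (e.2 : UnitAddCircle)) (by
  rintro ⟨c, s⟩ ⟨d, t⟩ ⟨n, hn⟩
  have : t - n = s := congrArg Prod.snd hn
  have z : ((n : ℝ) : UnitAddCircle) = 0 := (AddCircle.coe_eq_zero_iff _).2 ⟨n, by simp⟩
  simp [← this, z])

lemma h_cont : Continuous h :=
  Continuous.quotient_lift ((AddCircle.continuous_mk' 1).comp continuous_snd) _

noncomputable def ρ (a : ℝ) (p : X × X) : ℝ := ‖h p.2 - h p.1 - a‖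

lemma ρ_cont (a : ℝ) : Continuous (ρ a) := by have := h_cont; unfold ρ; fun_prop

noncomputable def Ψ (a : ℝ) (c d : C) (q : ℝ × ℝ) : X × X := (π (c, q.1), π (d, q.1 + q.2 + a))

lemma ρΨ (a : ℝ) (c d : C) (q : ℝ × ℝ) : ρ a (Ψ a c d q) = ‖(q.2 : UnitAddCircle)‖ := by
  change ‖((q.1 + q.2 + a : ℝ) : UnitAddCircle) - q.1 - a‖ = _
  rw [← AddCircle.coe_sub, ← AddCircle.coe_sub]
  congr 2
  ring

def cut (c : C) (N : ℕ) : C := fun i => if |i| ≤ N then c i else false

lemma ev (i : ℤ) : ∀ᶠ N : ℕ in atTop, |i| ≤ N :=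
  (tendsto_natCast_atTop_atTop (R := ℤ)).eventually_ge_atTop _

lemma cut_lim (c : C) : Tendsto (cut c) atTop (𝓝 c) := tendsto_pi_nhds.2 fun i =>
  tendsto_const_nhds.congr' ((ev i).mono fun _ h => (if_pos h).symm)

lemma sh_cut (c : C) (N : ℕ) : Tendsto (fun n : ℕ => sh n (cut c N)) atTop (𝓝 fun _ => false) :=
  tendsto_pi_nhds.2 fun i => tendsto_const_nhds.congr' ((ev (|i| + N + 1)).mono fun n h => by
    have := abs_le.1 h
    have := neg_abs_le i
    have := le_abs_self (i + n)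
    exact (if_neg (by omega)).symm)

lemma W_sub (a : ℝ) : Subcont {p | ρ a p ≤ 1 / 8} ∧ (interior {p | ρ a p ≤ 1 / 8}).Nonempty := by
  have cl : IsClosed {p | ρ a p ≤ 1 / 8} := isClosed_le (ρ_cont a) continuous_const
  let z : C := fun _ => false
  have z0 : ρ a (Ψ a z z 0) < 1 / 8 := by simp [ρΨ]
  have ct : Continuous fun x : C × C × ℝ × ℝ => Ψ a x.1 x.2.1 x.2.2 := by
    have := π_q.continuous
    unfold Ψ; fun_prop
  let A : C × C × ℕ → Set (X × X) := fun x => closure (Ψ a (cut x.1 x.2.2) (cut x.2.1 x.2.2) ''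
    (univ ×ˢ Icc (-1 / 8) (1 / 8)))
  refine ⟨⟨cl.isCompact, ⟨_, z0.le⟩, (isPreconnected_iUnion (s := A) ⟨Ψ a z z 0,
    mem_iInter.2 fun x => ?_⟩ fun x => ?_).subset_closure (iUnion_subset fun x => ?_) ?_⟩,
    ⟨_, interior_maximal (fun p (hp : ρ a p < 1 / 8) => hp.le)
      (isOpen_lt (ρ_cont a) continuous_const) z0⟩⟩
  · have := (ct.tendsto (z, z, 0)).comp ((sh_cut x.1 x.2.2).prodMk_nhds
      ((sh_cut x.2.1 x.2.2).prodMk_nhds tendsto_const_nhds))
    refine mem_closure_of_tendsto this (.of_forall fun n => ⟨((n : ℤ), 0), by norm_num, ?_⟩)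
    simp only [Ψ, Function.comp, ← π_sh]
    simp [add_comm]
  · exact ((isPreconnected_univ.prod isPreconnected_Icc).image _
      (ct.comp (f := fun q => (_, _, q)) (by fun_prop)).continuousOn).closure
  · refine cl.closure_subset_iff.2 ?_
    rintro _ ⟨q, ⟨_, h1, h2⟩, rfl⟩
    exact (ρΨ _ _ _ _).trans_le (QuotientAddGroup.norm_mk_le_norm.trans (abs_le.2 ⟨by linarith, h2⟩))
  · rintro ⟨x, y⟩ hp
    obtain ⟨⟨c, s⟩, rfl⟩ := π_q.surjective x
    obtain ⟨⟨d, t⟩, rfl⟩ := π_q.surjective y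
    have e : (π (c, s), π (d, t)) = Ψ a c d (s, t - s - a) := by
      simp only [Ψ]; congr 3; ring
    rw [e, mem_ofPred, ρΨ, UnitAddCircle.norm_eq, abs_le] at hp
    have e2 : (π (c, s), π (d, t)) = Ψ a c (sh (round (t - s - a)) d)
        (s, t - s - a - round (t - s - a)) := by
      simp only [Ψ, ← π_sh]; congr 3; ring
    rw [e2]
    refine mem_closure_of_tendsto ((ct.tendsto (_, _, _)).comp ((cut_lim _).prodMk_nhds
      ((cut_lim _).prodMk_nhds tendsto_const_nhds))) (.of_forall fun n => ?_)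
    exact mem_iUnion.2 ⟨(_, _, n), subset_closure ⟨_, ⟨trivial, by linarith [hp.1], hp.2⟩, rfl⟩⟩

def mix (c d : C) (M : ℕ) : C := fun i => if |i| ≤ M then c i else if |i - 3 * M| ≤ M then
  d (i - 3 * M) else if |i + 3 * M| ≤ M then d (i + 3 * M) else true

lemma indec : Indec X := by
  rintro ⟨A, B, hA, hB, nA, nB, u⟩
  obtain ⟨x, hx⟩ := (ne_univ_iff_exists_notMem _).1 nB
  obtain ⟨y, hy⟩ := (ne_univ_iff_exists_notMem _).1 nA
  obtain ⟨⟨c, s⟩, rfl⟩ := π_q.surjective x
  obtain ⟨⟨d, t⟩, rfl⟩ := π_q.surjective y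
  have inA : ∀ x ∉ B, x ∈ A := fun x hx => (u.symm ▸ mem_univ x : x ∈ A ∪ B).resolve_right hx
  have oU : IsOpen {e : C | π (e, s) ∉ B} :=
    hB.1.isClosed.isOpen_compl.preimage (π_q.continuous.comp (by fun_prop))
  have oV : IsOpen {e : C | π (e, t) ∉ A} :=
    hA.1.isClosed.isOpen_compl.preimage (π_q.continuous.comp (by fun_prop))
  have l1 : Tendsto (mix c d) atTop (𝓝 c) := tendsto_pi_nhds.2 fun i =>
    tendsto_const_nhds.congr' ((ev i).mono fun _ h => (if_pos h).symm)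
  have l2 : Tendsto (fun M : ℕ => sh (3 * M) (mix c d M)) atTop (𝓝 d) := tendsto_pi_nhds.2 fun i =>
    tendsto_const_nhds.congr' ((ev (|i| + 1)).mono fun M h => by
      have := abs_le.1 h
      have h1 : ¬ |i + 3 * M| ≤ M := by grind
      have h2 : |i| ≤ M := by omega
      simp [sh, mix, h1, h2])
  have l3 : Tendsto (fun M : ℕ => sh (-3 * M) (mix c d M)) atTop (𝓝 d) :=
    tendsto_pi_nhds.2 fun i => tendsto_const_nhds.congr' ((ev (|i| + 1)).mono fun M h => by
      have := abs_le.1 h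
      have h1 : ¬ |i + -(3 * M)| ≤ M := by grind
      have h3 : ¬ |i + -(3 * M) - 3 * M| ≤ M := by grind
      have h2 : |i| ≤ M := by omega
      simp [sh, mix, h1, h2, h3])
  obtain ⟨M, ⟨⟨⟨m1, m2⟩, m3⟩, m4⟩, m5⟩ := (((((l1.eventually (oU.mem_nhds hx)).and
    (l2.eventually (oV.mem_nhds hy))).and (l3.eventually (oV.mem_nhds hy))).and
    ((cut_lim c).eventually (oU.mem_nhds hx))).and
    ((tendsto_natCast_atTop_atTop (R := ℝ)).eventually_gt_atTop |s - t|)).exists
  have oR : IsOpen {e : C | ∀ i ∈ Icc (5 * M + 1 : ℤ) (7 * M + 2), e i = true} := by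
    simp only [ofPred_forall]
    exact (finite_Icc _ _).isOpen_biInter fun i _ =>
      (isOpen_discrete {true}).preimage (continuous_apply (A := fun _ : ℤ => Bool) i)
  obtain ⟨K, hK, k1, k2⟩ := compact_exists_isClopen_in_isOpen (x := mix c d M)
    (((oV.preimage (sh_cont (3 * M))).inter (oV.preimage (sh_cont (-3 * M)))).inter oR)
    ⟨⟨m2, m3⟩, fun i hi => by
      have := hi.1
      simp only [mix, abs_le]
      rw [if_neg (by omega), if_neg (by omega), if_neg (by omega)]⟩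
  rw [abs_lt] at m5
  have sub := hA.2.2.subset_of_closure_inter_subset
    (π_q.isOpenMap _ (hK.isOpen.prod (isOpen_Ioo (a := t + (-3 * M : ℤ)) (b := t + (3 * M : ℤ)))))
    ⟨_, inA _ m1, (_, s), ⟨k1, by push_cast; constructor <;> linarith [m5.1, m5.2]⟩, rfl⟩ (by
      rintro z ⟨z1, z2⟩
      obtain ⟨⟨e, r⟩, ⟨e1, e2, e3⟩, rfl⟩ := closure_minimal
        (image_mono (Set.prod_mono le_rfl Ioo_subset_Icc_self))
        ((hK.isClosed.isCompact.prod isCompact_Icc).image π_q.continuous).isClosed z1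
      refine ⟨(e, r), ⟨e1, e2.lt_of_ne ?_, e3.lt_of_ne ?_⟩, rfl⟩
      · rintro rfl
        exact (k2 e1).1.2 (π_sh _ _ _ ▸ z2)
      · rintro rfl
        exact (k2 e1).1.1 (π_sh _ _ _ ▸ z2))
  obtain ⟨⟨e, r⟩, ⟨e1, _⟩, e3⟩ := sub (inA _ m4)
  obtain ⟨n, rfl, _⟩ := π_eq.1 e3
  have a1 := (k2 e1).2 (5 * M + 1) ⟨le_rfl, by omega⟩
  have a2 := (k2 e1).2 (7 * M + 2) ⟨by omega, le_rfl⟩
  simp only [sh, cut, abs_le, Bool.ite_eq_true_distrib, Bool.false_eq_true, if_false_right] at a1 a2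
  omega

/-- There is an indecomposable (metrizable) continuum `X` and a subcontinuum `W` of `X × X` with
nonempty interior such that `T(W) ≠ X × X`. -/
theorem result : ∃ (X : Type) (_ : TopologicalSpace X), CompactSpace X ∧ T2Space X ∧
    ConnectedSpace X ∧ TopologicalSpace.MetrizableSpace X ∧ Indec X ∧
    ∃ W : Set (X × X), Subcont W ∧ (interior W).Nonempty ∧ T W ≠ univ := by
  refine ⟨X, inferInstance, inferInstance, inferInstance, ?_, inferInstance, indec, _,
    (W_sub 0).1, (W_sub 0).2, fun c => ?_⟩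
  · rw [connectedSpace_iff_univ]
    convert (W_sub 0).1.2.image _ continuous_fst.continuousOn
    exact (eq_univ_of_forall fun x => mem_image_of_mem (x := (x, x)) _ (by simp [ρ])).symm
  · obtain ⟨p, hp⟩ := (W_sub (1 / 2)).2
    refine (c.symm ▸ mem_univ p : p ∈ T _) ⟨_, (W_sub _).1, hp, eq_empty_of_forall_notMem ?_⟩
    rintro q ⟨h1, h2⟩
    have := norm_sub_le (h q.2 - h q.1 - (0 : ℝ)) (h q.2 - h q.1 - (1 / 2 : ℝ))
    rw [sub_sub_sub_cancel_left, AddCircle.coe_zero, sub_zero, AddCircle.norm_half_period_eq] at this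
    simp only [mem_ofPred, ρ, AddCircle.coe_zero] at h1 h2
    norm_num at this h1 h2
    linarith

end Pool.Agent.Results.MP_cdfe0d_gt.Counter
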